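import Mathlib

/-!
A Hausdorff topological semilattice which is c-complete but not s-complete.
-/

namespace Pool.Agent.Results.MP_5a7388_gt.NotSComplete

/-- `s`-completeness of a (topological) semilattice. -/
def SComplete (X : Type*) [TopologicalSpace X] [SemilatticeInf X] : Prop :=
  (∀ S : Set X, S.Nonempty → (∀ a ∈ S, ∀ b ∈ S, a ⊓ b ∈ S) →
      ∃ z, IsGLB S z ∧ z ∈ closure {x | ∃ a ∈ S, a ≤ x}) ∧
    ∀ C : Set X, C.Nonempty → IsChain (· ≤ ·) C →
      ∃ z, IsLUB C z ∧ z ∈ closure {x | ∃ a ∈ C, x ≤ a}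

/-- `c`-completeness of a (topological) semilattice. -/
def CComplete (X : Type*) [TopologicalSpace X] [SemilatticeInf X] : Prop :=
  ∀ F : Set X, IsClosed F → {x | ∃ a ∈ F, a ≤ x} = F →
    ∀ C : Set X, C ⊆ F → C.Nonempty → IsChain (· ≤ ·) C →
      (∃ z, IsGLB C z ∧ z ∈ F) ∧ ∃ z, IsLUB C z ∧ z ∈ closure {x | ∃ a ∈ C, x ≤ a}

/-- The column semilattice (written with the reversed order). -/
abbrev L := WithTop (ℕ × Bool)

/-- The point `(n, e)` of a column. -/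
abbrev pt (n : ℕ) (e : Bool) : L := ((n, e) : ℕ × Bool)

lemma bot_eq : (⊥ : L) = pt 0 false := rfl

/-- Finitely supported sequences with the growth condition. -/
def Good (p : ℕ → L) : Prop :=
  (∃ N, ∀ k, N ≤ k → p k = ⊥) ∧ ∀ j k, j < k → p k ≠ ⊥ → pt k false ≤ p j

lemma Good.sup {p q : ℕ → L} (hp : Good p) (hq : Good q) : Good (p ⊔ q) := by
  obtain ⟨⟨N, hN⟩, h1⟩ := hp
  obtain ⟨⟨M, hM⟩, h2⟩ := hq
  refine ⟨⟨max N M, fun k hk => ?_⟩, fun j k hjk hk => ?_⟩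
  · simp [hN k (le_trans (le_max_left _ _) hk), hM k (le_trans (le_max_right _ _) hk)]
  · by_cases hpk : p k = ⊥
    · by_cases hqk : q k = ⊥
      · exact absurd (by simp [hpk, hqk]) hk
      · exact le_trans (h2 j k hjk hqk) le_sup_right
    · exact le_trans (h1 j k hjk hpk) le_sup_left

/-- The set of all points but the bottom element. -/
def P := {p : ℕ → L // Good p}

noncomputable instance : SemilatticeSup P := Subtype.semilatticeSup fun _ _ hp hq => Good.sup hp hq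

lemma le_iff {p q : P} : p ≤ q ↔ ∀ k, p.1 k ≤ q.1 k := Iff.rfl

lemma sup_val (p q : P) (k : ℕ) : (p ⊔ q).1 k = p.1 k ⊔ q.1 k := rfl

/-- Basic neighbourhoods of the points of `P`. -/
def Box (p : P) (M : ℕ) : Set P :=
  {q | ∀ k, (p.1 k ≠ ⊤ → q.1 k = p.1 k) ∧ (p.1 k = ⊤ → pt M false ≤ q.1 k)}

/-- Basic neighbourhoods of the extra point. -/
def Up (K : ℕ) : Set P :=
  {q | ∃ m, K ≤ m ∧ (∃ n, q.1 m = pt n true) ∧ ∀ j, m ≤ j → q.1 j ≠ ⊤}

/-- The (order dual of the) underlying space. -/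
abbrev Y := WithTop P

lemma pt_mono {M N : ℕ} (h : M ≤ N) (e : Bool) : pt M e ≤ pt N e := by
  rw [WithTop.coe_le_coe]; exact ⟨h, le_rfl⟩

lemma Box_mono {p : P} {M N : ℕ} (h : M ≤ N) : Box p N ⊆ Box p M := fun _ hq k =>
  ⟨(hq k).1, fun hk => le_trans (pt_mono h false) ((hq k).2 hk)⟩

lemma Up_mono {M N : ℕ} (h : M ≤ N) : Up N ⊆ Up M := fun _ ⟨m, hm, h1⟩ =>
  ⟨m, le_trans h hm, h1⟩

lemma self_mem_Box (p : P) (M : ℕ) : p ∈ Box p M := fun k =>
  ⟨fun _ => rfl, fun hk => by rw [hk]; exact le_top⟩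

instance : TopologicalSpace Y where
  IsOpen U := (∀ p : P, (p : Y) ∈ U → ∃ M, ∀ q ∈ Box p M, (q : Y) ∈ U) ∧
    (⊤ ∈ U → ∃ K, ∀ q ∈ Up K, (q : Y) ∈ U)
  isOpen_univ := ⟨fun _ _ => ⟨0, fun _ _ => trivial⟩, fun _ => ⟨0, fun _ _ => trivial⟩⟩
  isOpen_inter := by
    rintro U V ⟨hU1, hU2⟩ ⟨hV1, hV2⟩
    refine ⟨fun p hp => ?_, fun ht => ?_⟩
    · obtain ⟨M, hM⟩ := hU1 p hp.1
      obtain ⟨N, hN⟩ := hV1 p hp.2
      exact ⟨max M N, fun q hq => ⟨hM q (Box_mono (le_max_left _ _) hq),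
        hN q (Box_mono (le_max_right _ _) hq)⟩⟩
    · obtain ⟨M, hM⟩ := hU2 ht.1
      obtain ⟨N, hN⟩ := hV2 ht.2
      exact ⟨max M N, fun q hq => ⟨hM q (Up_mono (le_max_left _ _) hq),
        hN q (Up_mono (le_max_right _ _) hq)⟩⟩
  isOpen_sUnion := by
    intro S hS
    refine ⟨fun p hp => ?_, fun ht => ?_⟩
    · obtain ⟨U, hU, hpU⟩ := hp
      obtain ⟨M, hM⟩ := (hS U hU).1 p hpU
      exact ⟨M, fun q hq => ⟨U, hU, hM q hq⟩⟩
    · obtain ⟨U, hU, hpU⟩ := ht
      obtain ⟨M, hM⟩ := (hS U hU).2 hpU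
      exact ⟨M, fun q hq => ⟨U, hU, hM q hq⟩⟩

lemma isOpen_iff {U : Set Y} : IsOpen U ↔
    (∀ p : P, (p : Y) ∈ U → ∃ M, ∀ q ∈ Box p M, (q : Y) ∈ U) ∧
    (⊤ ∈ U → ∃ K, ∀ q ∈ Up K, (q : Y) ∈ U) := Iff.rfl

lemma Box_Box {p q : P} {M : ℕ} (h : q ∈ Box p M) : Box q M ⊆ Box p M := by
  intro r hr k
  refine ⟨fun hk => ?_, fun hk => ?_⟩
  · have h1 := (h k).1 hk
    rw [(hr k).1 (by rwa [h1]), h1]
  · by_cases hq : q.1 k = ⊤
    · exact (hr k).2 hq
    · rw [(hr k).1 hq]; exact (h k).2 hk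

/-- The box as a subset of `Y`. -/
def BoxY (p : P) (M : ℕ) : Set Y := (fun q : P => (q : Y)) '' Box p M

/-- The neighbourhood of the top as a subset of `Y`. -/
def UpY (K : ℕ) : Set Y := insert ⊤ ((fun q : P => (q : Y)) '' Up K)

lemma coe_mem_BoxY {p q : P} {M : ℕ} : (q : Y) ∈ BoxY p M ↔ q ∈ Box p M := by
  constructor
  · rintro ⟨r, hr, h⟩
    rwa [← WithTop.coe_injective h]
  · intro h; exact ⟨q, h, rfl⟩

lemma top_notMem_BoxY {p : P} {M : ℕ} : (⊤ : Y) ∉ BoxY p M := by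
  rintro ⟨r, hr, h⟩
  exact absurd h (WithTop.coe_ne_top)

lemma coe_mem_UpY {q : P} {K : ℕ} : (q : Y) ∈ UpY K ↔ q ∈ Up K := by
  constructor
  · rintro (h | ⟨r, hr, h⟩)
    · exact absurd h (WithTop.coe_ne_top)
    · rwa [← WithTop.coe_injective h]
  · intro h; exact Or.inr ⟨q, h, rfl⟩

lemma isOpen_BoxY (p : P) (M : ℕ) : IsOpen (BoxY p M) := by
  rw [isOpen_iff]
  refine ⟨fun q hq => ⟨M, fun r hr => ?_⟩, fun h => absurd h top_notMem_BoxY⟩
  rw [coe_mem_BoxY] at hq ⊢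
  exact Box_Box hq hr

lemma isOpen_UpY (K : ℕ) : IsOpen (UpY K) := by
  rw [isOpen_iff]
  refine ⟨fun q hq => ⟨0, fun r hr => ?_⟩, fun _ => ⟨K, fun r hr => ?_⟩⟩
  · rw [coe_mem_UpY] at hq ⊢
    obtain ⟨m, hm, ⟨n, hn⟩, hj⟩ := hq
    refine ⟨m, hm, ⟨n, ?_⟩, fun j hmj => ?_⟩
    · rw [(hr m).1 (hj m le_rfl), hn]
    · rw [(hr j).1 (hj j hmj)]; exact hj j hmj
  · rw [coe_mem_UpY]; exact hr

/-- Separation of two points of `P`. -/
lemma sep_P {p q : P} (h : p ≠ q) : ∃ M, Disjoint (BoxY p M) (BoxY q M) := by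
  have hne : ∃ k, p.1 k ≠ q.1 k := by
    by_contra hc
    push Not at hc
    exact h (Subtype.ext (funext hc))
  obtain ⟨k, hk⟩ := hne
  have key : ∀ p q : P, p.1 k ≠ q.1 k → q.1 k ≠ ⊤ → ∃ M, Disjoint (BoxY p M) (BoxY q M) := by
    intro p q hk hq
    obtain ⟨⟨n, e⟩, hne⟩ := WithTop.ne_top_iff_exists.1 hq
    refine ⟨n + 1, ?_⟩
    rw [Set.disjoint_left]
    intro a ha hb
    obtain ⟨r, hr, rfl⟩ := ha
    rw [coe_mem_BoxY] at hb
    have h2 := (hb k).1 hq
    by_cases hp : p.1 k = ⊤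
    · have h1 := (hr k).2 hp
      rw [h2, ← hne, WithTop.coe_le_coe] at h1
      have := h1.1
      simp at this
    · exact hk (((hr k).1 hp).symm.trans h2)
  by_cases hq : q.1 k = ⊤
  · obtain ⟨M, hM⟩ := key q p hk.symm (by rw [← hq]; exact hk)
    exact ⟨M, hM.symm⟩
  · exact key p q hk hq

lemma sep_top (p : P) : ∃ K, Disjoint (BoxY p 0) (UpY K) := by
  obtain ⟨N, hN⟩ := p.2.1
  refine ⟨N, ?_⟩
  rw [Set.disjoint_left]
  rintro a ⟨r, hr, rfl⟩ hb
  rw [coe_mem_UpY] at hb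
  obtain ⟨m, hm, ⟨n, hn⟩, -⟩ := hb
  have h1 : r.1 m = ⊥ := by
    have := (hr m).1 (by rw [hN m hm]; exact bot_ne_top)
    rw [this, hN m hm]
  rw [h1, bot_eq, WithTop.coe_eq_coe] at hn
  exact absurd (congrArg Prod.snd hn) (by simp)

instance : T2Space Y := by
  refine ⟨fun x y hxy => ?_⟩
  induction x using WithTop.recTopCoe with
  | top =>
    induction y using WithTop.recTopCoe with
    | top => exact absurd rfl hxy
    | coe q =>
      obtain ⟨K, hK⟩ := sep_top q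
      exact ⟨UpY K, BoxY q 0, isOpen_UpY K, isOpen_BoxY q 0, Or.inl rfl,
        coe_mem_BoxY.2 (self_mem_Box q 0), hK.symm⟩
  | coe p =>
    induction y using WithTop.recTopCoe with
    | top =>
      obtain ⟨K, hK⟩ := sep_top p
      exact ⟨BoxY p 0, UpY K, isOpen_BoxY p 0, isOpen_UpY K,
        coe_mem_BoxY.2 (self_mem_Box p 0), Or.inl rfl, hK⟩
    | coe q =>
      obtain ⟨M, hM⟩ := sep_P (p := p) (q := q) (fun h => hxy (by rw [h]))
      exact ⟨BoxY p M, BoxY q M, isOpen_BoxY p M, isOpen_BoxY q M,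
        coe_mem_BoxY.2 (self_mem_Box p M), coe_mem_BoxY.2 (self_mem_Box q M), hM⟩

lemma Box_sup {p q r s : P} {M : ℕ} (hr : r ∈ Box p M) (hs : s ∈ Box q M) :
    r ⊔ s ∈ Box (p ⊔ q) M := by
  intro k
  rw [sup_val, sup_val]
  refine ⟨fun hk => ?_, fun hk => ?_⟩
  · have hp : p.1 k ≠ ⊤ := fun h => hk (by rw [h]; exact top_sup_eq _)
    have hq : q.1 k ≠ ⊤ := fun h => hk (by rw [h]; exact sup_top_eq _)
    rw [(hr k).1 hp, (hs k).1 hq]
  · by_cases hp : p.1 k = ⊤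
    · exact le_trans ((hr k).2 hp) le_sup_left
    · by_cases hq : q.1 k = ⊤
      · exact le_trans ((hs k).2 hq) le_sup_right
      · exfalso
        obtain ⟨a, ha⟩ := WithTop.ne_top_iff_exists.1 hp
        obtain ⟨b, hb⟩ := WithTop.ne_top_iff_exists.1 hq
        rw [← ha, ← hb, ← WithTop.coe_sup] at hk
        exact WithTop.coe_ne_top hk

lemma sup_ne_top {a b : L} (ha : a ≠ ⊤) (hb : b ≠ ⊤) : a ⊔ b ≠ ⊤ := by
  obtain ⟨a, rfl⟩ := WithTop.ne_top_iff_exists.1 ha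
  obtain ⟨b, rfl⟩ := WithTop.ne_top_iff_exists.1 hb
  rw [← WithTop.coe_sup]; exact WithTop.coe_ne_top

lemma Up_sup_aux {K m m' : ℕ} {q r : P} (hmm : m' ≤ m) (hm : K ≤ m)
    (h1 : ∃ n, q.1 m = pt n true) (h2 : ∀ j, m ≤ j → q.1 j ≠ ⊤)
    (h3 : ∀ j, m' ≤ j → r.1 j ≠ ⊤) : q ⊔ r ∈ Up K := by
  obtain ⟨n, hn⟩ := h1
  refine ⟨m, hm, ?_, fun j hj => ?_⟩
  · obtain ⟨⟨a, e⟩, ha⟩ := WithTop.ne_top_iff_exists.1 (h3 m hmm)
    refine ⟨n ⊔ a, ?_⟩
    rw [sup_val, hn, ← ha, ← WithTop.coe_sup]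
    simp
  · rw [sup_val]; exact sup_ne_top (h2 j hj) (h3 j (le_trans hmm hj))

lemma Up_sup {K : ℕ} {q r : P} (hq : q ∈ Up K) (hr : r ∈ Up K) : q ⊔ r ∈ Up K := by
  obtain ⟨m, hm, h1, h2⟩ := hq
  obtain ⟨m', hm', h1', h2'⟩ := hr
  rcases le_total m' m with h | h
  · exact Up_sup_aux h hm h1 h2 h2'
  · rw [sup_comm]; exact Up_sup_aux h hm' h1' h2' h2

lemma Up_sup_P (q : P) (K : ℕ) : ∃ K', ∀ r ∈ Up K', ∀ s ∈ Box q 0, r ⊔ s ∈ Up K := by
  obtain ⟨N, hN⟩ := q.2.1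
  refine ⟨max K N, fun r hr s hs => ?_⟩
  obtain ⟨m, hm, h1, h2⟩ := hr
  refine Up_sup_aux (m' := N) (le_trans (le_max_right _ _) hm) (le_trans (le_max_left _ _) hm)
    h1 h2 (fun j hj => ?_)
  rw [(hs j).1 (by rw [hN j hj]; exact bot_ne_top), hN j hj]
  exact bot_ne_top

instance : ContinuousSup Y := by
  refine ⟨?_⟩
  rw [continuous_def]
  intro W hW
  rw [isOpen_prod_iff]
  intro a b hab
  have htop : ∀ q : P, (⊤ : Y) ∈ W → ∃ K', ∀ x ∈ UpY K', ∀ y ∈ BoxY q 0, x ⊔ y ∈ W := by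
    intro q ht
    obtain ⟨K, hK⟩ := hW.2 ht
    obtain ⟨K', hK'⟩ := Up_sup_P q K
    refine ⟨K', ?_⟩
    rintro x (rfl | ⟨r, hr, rfl⟩) y ⟨s, hs, rfl⟩
    · rwa [top_sup_eq]
    · rw [← WithTop.coe_sup]; exact hK _ (hK' r hr s hs)
  induction a using WithTop.recTopCoe with
  | top =>
    induction b using WithTop.recTopCoe with
    | top =>
      have ht : (⊤ : Y) ∈ W := by simpa using hab
      obtain ⟨K, hK⟩ := hW.2 ht
      refine ⟨UpY K, UpY K, isOpen_UpY K, isOpen_UpY K, Or.inl rfl, Or.inl rfl, ?_⟩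
      rintro ⟨x, y⟩ ⟨hx, hy⟩
      change x ⊔ y ∈ W
      rcases hx with hx | ⟨r, hr, hx⟩
      · simp only at hx; rw [hx, top_sup_eq]; exact ht
      · rcases hy with hy | ⟨s, hs, hy⟩
        · simp only at hy; rw [hy, sup_top_eq]; exact ht
        · simp only at hx hy
          rw [← hx, ← hy, ← WithTop.coe_sup]; exact hK _ (Up_sup hr hs)
    | coe q =>
      obtain ⟨K', hK'⟩ := htop q (by simpa using hab)
      exact ⟨UpY K', BoxY q 0, isOpen_UpY K', isOpen_BoxY q 0, Or.inl rfl,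
        coe_mem_BoxY.2 (self_mem_Box q 0), fun ⟨x, y⟩ ⟨hx, hy⟩ => hK' x hx y hy⟩
  | coe p =>
    induction b using WithTop.recTopCoe with
    | top =>
      obtain ⟨K', hK'⟩ := htop p (by simpa using hab)
      refine ⟨BoxY p 0, UpY K', isOpen_BoxY p 0, isOpen_UpY K',
        coe_mem_BoxY.2 (self_mem_Box p 0), Or.inl rfl, fun ⟨x, y⟩ ⟨hx, hy⟩ => ?_⟩
      change x ⊔ y ∈ W
      rw [sup_comm]; exact hK' y hy x hx
    | coe q =>
      have h1 : ((p ⊔ q : P) : Y) ∈ W := by rw [WithTop.coe_sup]; exact hab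
      obtain ⟨M, hM⟩ := hW.1 _ h1
      refine ⟨BoxY p M, BoxY q M, isOpen_BoxY p M, isOpen_BoxY q M,
        coe_mem_BoxY.2 (self_mem_Box p M), coe_mem_BoxY.2 (self_mem_Box q M), ?_⟩
      rintro ⟨x, y⟩ ⟨⟨r, hr, hx⟩, ⟨s, hs, hy⟩⟩
      change x ⊔ y ∈ W
      simp only at hx hy
      rw [← hx, ← hy, ← WithTop.coe_sup]; exact hM _ (Box_sup hr hs)

/-- Every nonempty chain has a least element in `Y`. -/
lemma exists_isLeast {C : Set Y} (hC : C.Nonempty) (hch : IsChain (· ≤ ·) C) :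
    ∃ c, IsLeast C c := by
  by_cases h : ∃ p : P, (p : Y) ∈ C
  · obtain ⟨p, hp⟩ := h
    obtain ⟨N, hN⟩ := p.2.1
    let S : Set (Fin N → L) := {g | ∃ c : P, (c : Y) ∈ C ∧ c ≤ p ∧ g = fun i : Fin N => c.1 i}
    have hS : S.Nonempty := ⟨fun i : Fin N => p.1 i, p, hp, le_rfl, rfl⟩
    have wf : WellFounded ((· < ·) : (Fin N → L) → (Fin N → L) → Prop) := wellFounded_lt
    obtain ⟨g, ⟨c, hcC, hcp, rfl⟩, hmin⟩ := wf.has_min S hS
    refine ⟨c, hcC, ?_⟩
    intro x hx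
    rcases eq_or_ne (c : Y) x with h | hne
    · exact h.le
    rcases hch hcC hx hne with h | h
    · exact h
    · exfalso
      induction x using WithTop.recTopCoe with
      | top => exact absurd (top_le_iff.1 h) WithTop.coe_ne_top
      | coe d =>
        have hdc : d ≤ c := WithTop.coe_le_coe.1 h
        refine hmin (fun i => d.1 i) ⟨d, hx, le_trans hdc hcp, rfl⟩ ?_
        refine lt_of_le_of_ne (fun i => hdc i) (fun heq => hne ?_)
        congr 1
        apply Subtype.ext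
        funext k
        by_cases hk : k < N
        · exact (congrFun heq ⟨k, hk⟩).symm
        · have hck : c.1 k = ⊥ := by
            have := hcp k
            rw [hN k (not_lt.1 hk)] at this
            exact le_bot_iff.1 this
          have hdk : d.1 k = ⊥ := by
            have := hdc k
            rw [hck] at this
            exact le_bot_iff.1 this
          rw [hck, hdk]
  · push Not at h
    obtain ⟨x, hx⟩ := hC
    have hall : ∀ y ∈ C, y = ⊤ := by
      intro y hy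
      induction y using WithTop.recTopCoe with
      | top => rfl
      | coe d => exact absurd hy (h d)
    refine ⟨x, hx, fun y hy => ?_⟩
    rw [hall x hx, hall y hy]

/-- the auxiliary points -/
def aux (k : ℕ) (a : L) : P := ⟨fun j => if j < k then pt k false else if j = k then a else ⊥, by
  refine ⟨⟨k + 1, fun j hj => ?_⟩, fun i j hij hj => ?_⟩
  · beta_reduce
    rw [if_neg (by omega), if_neg (by omega)]
  · have hjk : j ≤ k := by
      by_contra hc
      exact hj (by beta_reduce; rw [if_neg (by omega), if_neg (by omega)])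
    simp only
    rw [if_pos (by omega)]
    exact pt_mono hjk false⟩

lemma aux_val (k : ℕ) (a : L) (j : ℕ) :
    (aux k a).1 j = if j < k then pt k false else if j = k then a else ⊥ := rfl

/-- Unbounded supports force `⊤` to lie in every closed lower set containing the chain. -/
lemma top_mem_of_unbounded {F : Set Y} (hF : IsClosed F) (hlow : IsLowerSet F)
    (h : ∀ N, ∃ c : P, (c : Y) ∈ F ∧ ∃ k, N ≤ k ∧ c.1 k ≠ ⊥) : ⊤ ∈ F := by
  have hz : ∀ k n, ((aux k (pt n false) : P) : Y) ∈ F := by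
    intro k n
    obtain ⟨c, hc, K, hK, hne⟩ := h (max k n + 1)
    have hkK : k < K := lt_of_lt_of_le (Nat.lt_succ_of_le (le_max_left k n)) hK
    have hnK : n < K := lt_of_lt_of_le (Nat.lt_succ_of_le (le_max_right k n)) hK
    refine hlow (WithTop.coe_le_coe.2 ?_) hc
    rw [le_iff]
    intro j
    rw [aux_val]
    split_ifs with h1 h2
    · exact le_trans (pt_mono hkK.le false) (c.2.2 j K (h1.trans hkK) hne)
    · subst h2
      exact le_trans (pt_mono hnK.le false) (c.2.2 j K hkK hne)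
    · exact bot_le
  have hy : ∀ k, ((aux k ⊤ : P) : Y) ∈ F := by
    intro k
    rw [← hF.closure_eq, mem_closure_iff]
    intro U hU hmem
    obtain ⟨M, hM⟩ := hU.1 _ hmem
    refine ⟨_, hM (aux k (pt M false)) ?_, hz k M⟩
    intro j
    rw [aux_val, aux_val]
    split_ifs with h1 h2
    · exact ⟨fun _ => rfl, fun h => absurd h (WithTop.coe_ne_top)⟩
    · exact ⟨fun h => absurd rfl h, fun _ => le_rfl⟩
    · exact ⟨fun _ => rfl, fun h => absurd h bot_ne_top⟩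
  have hx : ∀ k, ((aux k (pt 0 true) : P) : Y) ∈ F := by
    intro k
    refine hlow (WithTop.coe_le_coe.2 ?_) (hy k)
    rw [le_iff]
    intro j
    rw [aux_val, aux_val]
    split_ifs with h1 h2
    · exact le_rfl
    · exact le_top
    · exact le_rfl
  rw [← hF.closure_eq, mem_closure_iff]
  intro U hU hmem
  obtain ⟨K, hK⟩ := hU.2 hmem
  refine ⟨_, hK (aux K (pt 0 true)) ?_, hx K⟩
  refine ⟨K, le_rfl, ⟨0, ?_⟩, fun j hj => ?_⟩
  · rw [aux_val, if_neg (lt_irrefl _), if_pos rfl]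
  · rw [aux_val, if_neg (not_lt.2 hj)]
    split_ifs
    · exact WithTop.coe_ne_top
    · exact bot_ne_top

/-- In a column, a nonempty chain has a supremum to which it converges. -/
lemma column {I : Type*} (C : Set I) (hC : C.Nonempty) (f : I → L)
    (hch : ∀ i ∈ C, ∀ j ∈ C, f i ≤ f j ∨ f j ≤ f i) :
    ∃ s : L, (∀ i ∈ C, f i ≤ s) ∧ (∀ u, (∀ i ∈ C, f i ≤ u) → s ≤ u) ∧
      (s ≠ ⊤ → ∃ i ∈ C, f i = s) ∧ (s = ⊤ → ∀ M, ∃ i ∈ C, pt M false ≤ f i) := by
  by_cases hb : ∃ M, ∀ i ∈ C, ¬ pt M false ≤ f i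
  · obtain ⟨M, hM⟩ := hb
    -- finitely many values
    have hfin : (f '' C).Finite := by
      have hsub : f '' C ⊆ (fun a : ℕ × Bool => (a : L)) '' ((Set.Iio M) ×ˢ Set.univ) := by
        rintro _ ⟨i, hi, rfl⟩
        have h1 := hM i hi
        have hne : f i ≠ ⊤ := fun h => h1 (by rw [h]; exact le_top)
        obtain ⟨⟨n, e⟩, hn⟩ := WithTop.ne_top_iff_exists.1 hne
        refine ⟨(n, e), ⟨?_, trivial⟩, hn⟩
        simp only [Set.mem_Iio]
        by_contra hc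
        rw [← hn, WithTop.coe_le_coe] at h1
        exact h1 ⟨not_lt.1 hc, by simp⟩
      exact (((Set.finite_Iio M).prod Set.finite_univ).image _).subset hsub
    have hmax : ∃ i ∈ C, ∀ j ∈ C, f j ≤ f i := by
      obtain ⟨s, ⟨i, hi, rfl⟩, hs⟩ := hfin.exists_maximal (hC.image f)
      refine ⟨i, hi, fun j hj => ?_⟩
      rcases hch i hi j hj with h | h
      · exact hs ⟨j, hj, rfl⟩ h
      · exact h
    obtain ⟨i, hi, hmax⟩ := hmax
    refine ⟨f i, hmax, fun u hu => hu i hi, fun _ => ⟨i, hi, rfl⟩, fun h => ?_⟩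
    exact absurd (by rw [h]; exact le_top) (hM i hi)
  · push Not at hb
    refine ⟨⊤, fun _ _ => le_top, fun u hu => ?_, fun h => absurd rfl h, fun _ M => hb M⟩
    rw [top_le_iff]
    by_contra hne
    obtain ⟨⟨n, e⟩, hn⟩ := WithTop.ne_top_iff_exists.1 hne
    obtain ⟨i, hi, h⟩ := hb (n + 1)
    have := le_trans h (hu i hi)
    rw [← hn, WithTop.coe_le_coe] at this
    have := this.1
    simp at this

/-- Chains with bounded supports converge to their supremum. -/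
lemma bounded_case {C : Set P} (hC : C.Nonempty) (hch : IsChain (· ≤ ·) C) {N : ℕ}
    (hN : ∀ c ∈ C, ∀ k, N ≤ k → c.1 k = ⊥) :
    ∃ s : P, (∀ c ∈ C, c ≤ s) ∧ (∀ u : P, (∀ c ∈ C, c ≤ u) → s ≤ u) ∧
      ∀ M, ∃ c ∈ C, c ∈ Box s M := by
  have hcol : ∀ k, ∃ s : L, (∀ i ∈ C, i.1 k ≤ s) ∧ (∀ u, (∀ i ∈ C, i.1 k ≤ u) → s ≤ u) ∧
      (s ≠ ⊤ → ∃ i ∈ C, i.1 k = s) ∧ (s = ⊤ → ∀ M, ∃ i ∈ C, pt M false ≤ i.1 k) := by
    intro k
    refine column C hC (fun c => c.1 k) (fun i hi j hj => ?_)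
    rcases hch.total hi hj with h | h
    · exact Or.inl (h k)
    · exact Or.inr (h k)
  choose s hs1 hs2 hs3 hs4 using hcol
  have hsN : ∀ k, N ≤ k → s k = ⊥ := by
    intro k hk
    exact le_bot_iff.1 (hs2 k ⊥ fun i hi => (hN i hi k hk).le)
  have hgood : Good s := by
    refine ⟨⟨N, hsN⟩, fun j k hjk hk => ?_⟩
    have : ∃ i ∈ C, i.1 k ≠ ⊥ := by
      by_contra hc
      push Not at hc
      exact hk (le_bot_iff.1 (hs2 k ⊥ fun i hi => (hc i hi).le))
    obtain ⟨i, hi, hne⟩ := this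
    exact le_trans (i.2.2 j k hjk hne) (hs1 j i hi)
  refine ⟨⟨s, hgood⟩, fun c hc k => hs1 k c hc, fun u hu k => hs2 k _ fun i hi => hu i hi k, ?_⟩
  intro M
  -- choose the witnesses for the coordinates below N
  have hstep : ∀ n, ∃ c ∈ C, ∀ k, k < n →
      (s k ≠ ⊤ → c.1 k = s k) ∧ (s k = ⊤ → pt M false ≤ c.1 k) := by
    intro n
    induction n with
    | zero =>
      obtain ⟨c, hc⟩ := hC
      exact ⟨c, hc, fun k hk => absurd hk (Nat.not_lt_zero k)⟩
    | succ n ih =>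
      obtain ⟨c, hc, hck⟩ := ih
      have : ∃ d ∈ C, (s n ≠ ⊤ → d.1 n = s n) ∧ (s n = ⊤ → pt M false ≤ d.1 n) := by
        by_cases h : s n = ⊤
        · obtain ⟨d, hd, hd2⟩ := hs4 n h M
          exact ⟨d, hd, fun h' => absurd h h', fun _ => hd2⟩
        · obtain ⟨d, hd, hd2⟩ := hs3 n h
          exact ⟨d, hd, fun _ => hd2, fun h' => absurd h' h⟩
      obtain ⟨d, hd, hd1, hd2⟩ := this
      -- the larger one of c and d works
      have key : ∀ e ∈ C, c ≤ e → d ≤ e → ∀ k, k < n + 1 →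
          (s k ≠ ⊤ → e.1 k = s k) ∧ (s k = ⊤ → pt M false ≤ e.1 k) := by
        intro e he hce hde k hk
        rcases Nat.lt_succ_iff_lt_or_eq.1 hk with hk | rfl
        · exact ⟨fun h => le_antisymm (hs1 k e he) (by rw [← (hck k hk).1 h]; exact hce k),
            fun h => le_trans ((hck k hk).2 h) (hce k)⟩
        · exact ⟨fun h => le_antisymm (hs1 k e he) (by rw [← hd1 h]; exact hde k),
            fun h => le_trans (hd2 h) (hde k)⟩
      rcases hch.total hc hd with h | h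
      · exact ⟨d, hd, key d hd h le_rfl⟩
      · exact ⟨c, hc, key c hc le_rfl h⟩
  obtain ⟨c, hc, hck⟩ := hstep N
  refine ⟨c, hc, fun k => ?_⟩
  by_cases hk : k < N
  · exact hck k hk
  · have h1 : s k = ⊥ := hsN k (not_lt.1 hk)
    have h2 : c.1 k = ⊥ := hN c hc k (not_lt.1 hk)
    refine ⟨fun _ => ?_, fun h => ?_⟩
    · change c.1 k = s k
      rw [h1, h2]
    · change s k = ⊤ at h
      rw [h1] at h; exact absurd h bot_ne_top

/-- The dual form of the first half of c-completeness. -/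
lemma cc {F : Set Y} (hF : IsClosed F) (hlow : IsLowerSet F) {C : Set Y} (hCF : C ⊆ F)
    (hC : C.Nonempty) (hch : IsChain (· ≤ ·) C) : ∃ z, IsLUB C z ∧ z ∈ F := by
  by_cases htop : ⊤ ∈ C
  · exact ⟨⊤, ⟨fun _ _ => le_top, fun u hu => hu htop⟩, hCF htop⟩
  let C' : Set P := {c | (c : Y) ∈ C}
  have hC' : C'.Nonempty := by
    obtain ⟨x, hx⟩ := hC
    induction x using WithTop.recTopCoe with
    | top => exact absurd hx htop
    | coe c => exact ⟨c, hx⟩
  have hch' : IsChain (· ≤ ·) C' := by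
    intro a ha b hb hne
    rcases hch ha hb (fun h => hne (WithTop.coe_injective h)) with h | h
    · exact Or.inl (WithTop.coe_le_coe.1 h)
    · exact Or.inr (WithTop.coe_le_coe.1 h)
  by_cases hbd : ∃ N, ∀ c ∈ C', ∀ k, N ≤ k → c.1 k = ⊥
  · obtain ⟨N, hN⟩ := hbd
    obtain ⟨s, hs1, hs2, hs3⟩ := bounded_case hC' hch' hN
    refine ⟨s, ⟨fun x hx => ?_, fun u hu => ?_⟩, ?_⟩
    · induction x using WithTop.recTopCoe with
      | top => exact absurd hx htop
      | coe c => exact WithTop.coe_le_coe.2 (hs1 c hx)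
    · induction u using WithTop.recTopCoe with
      | top => exact le_top
      | coe v => exact WithTop.coe_le_coe.2 (hs2 v fun c hc => WithTop.coe_le_coe.1 (hu hc))
    · rw [← hF.closure_eq, mem_closure_iff]
      intro U hU hmem
      obtain ⟨M, hM⟩ := hU.1 _ hmem
      obtain ⟨c, hc, hcB⟩ := hs3 M
      exact ⟨_, hM c hcB, hCF hc⟩
  · push Not at hbd
    refine ⟨⊤, ⟨fun _ _ => le_top, fun u hu => ?_⟩, ?_⟩
    · induction u using WithTop.recTopCoe with
      | top => exact le_rfl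
      | coe v =>
        exfalso
        obtain ⟨N, hN⟩ := v.2.1
        obtain ⟨c, hc, k, hk, hne⟩ := hbd N
        have h1 : c ≤ v := WithTop.coe_le_coe.1 (hu hc)
        have h2 := h1 k
        rw [hN k hk] at h2
        exact hne (le_bot_iff.1 h2)
    · refine top_mem_of_unbounded hF hlow (fun N => ?_)
      obtain ⟨c, hc, k, hk, hne⟩ := hbd N
      exact ⟨c, hCF hc, k, hk, hne⟩

/-- The chain witnessing the failure of s-completeness. -/
def dd (n : ℕ) : P := ⟨fun k => if k < n then pt n false else ⊥, by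
  refine ⟨⟨n, fun k hk => if_neg (by omega)⟩, fun j k hjk hk => ?_⟩
  have hkn : k < n := by
    by_contra hc
    exact hk (if_neg hc)
  simp only
  rw [if_pos (by omega)]
  exact pt_mono hkn.le false⟩

lemma dd_val (n k : ℕ) : (dd n).1 k = if k < n then pt n false else ⊥ := rfl

lemma dd_mono {m n : ℕ} (h : m ≤ n) : dd m ≤ dd n := by
  rw [le_iff]
  intro k
  rw [dd_val, dd_val]
  split_ifs with h1 h2
  · exact pt_mono h false
  · omega
  · exact bot_le
  · exact le_rfl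

lemma not_sc : ¬ ∃ z : Y, IsLUB (Set.range fun n => ((dd n : P) : Y)) z ∧
    z ∈ closure {x : Y | ∃ a ∈ Set.range fun n => ((dd n : P) : Y), x ≤ a} := by
  rintro ⟨z, hz, hcl⟩
  have hztop : z = ⊤ := by
    induction z using WithTop.recTopCoe with
    | top => rfl
    | coe v =>
      exfalso
      obtain ⟨N, hN⟩ := v.2.1
      have h1 : ((dd (N + 1) : P) : Y) ≤ v := hz.1 ⟨N + 1, rfl⟩
      have h2 := (WithTop.coe_le_coe.1 h1) N
      rw [dd_val, if_pos (Nat.lt_succ_self N), hN N le_rfl, bot_eq, WithTop.coe_le_coe] at h2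
      have := h2.1
      simp at this
  subst hztop
  rw [mem_closure_iff] at hcl
  obtain ⟨x, hx, ⟨a, ⟨n, rfl⟩, hxa⟩⟩ := hcl (UpY 0) (isOpen_UpY 0) (Or.inl rfl)
  rcases hx with rfl | ⟨q, ⟨m, -, ⟨l, hl⟩, -⟩, rfl⟩
  · exact absurd (top_le_iff.1 hxa) WithTop.coe_ne_top
  · have h1 := (WithTop.coe_le_coe.1 hxa) m
    rw [hl, dd_val] at h1
    split_ifs at h1 with h2
    · rw [WithTop.coe_le_coe] at h1
      exact absurd h1.2 (show ¬ (true ≤ false) by decide)
    · rw [bot_eq, WithTop.coe_le_coe] at h1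
      exact absurd h1.2 (show ¬ (true ≤ false) by decide)

/-- There is a Hausdorff topological semilattice that is c-complete but not s-complete. -/
theorem result : ∃ (X : Type) (_ : TopologicalSpace X) (_ : SemilatticeInf X),
    T2Space X ∧ ContinuousInf X ∧ CComplete X ∧ ¬ SComplete X := by
  refine ⟨Yᵒᵈ, inferInstance, inferInstance, inferInstanceAs (T2Space Y), inferInstance, ?_, ?_⟩
  · intro F hF hup C hCF hC hch
    let F' : Set Y := OrderDual.toDual ⁻¹' F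
    let C' : Set Y := OrderDual.toDual ⁻¹' C
    have hlow : IsLowerSet F' := by
      intro a b hba ha
      have : OrderDual.toDual b ∈ {x | ∃ a ∈ F, a ≤ x} := ⟨OrderDual.toDual a, ha, hba⟩
      rw [hup] at this
      exact this
    have hF' : IsClosed F' := hF
    have hC' : C'.Nonempty := hC
    have hch' : IsChain (· ≤ ·) C' := by
      intro a ha b hb hne
      exact (hch ha hb hne).symm
    refine ⟨cc hF' hlow hCF hC' hch', ?_⟩
    obtain ⟨c, hc1, hc2⟩ := exists_isLeast hC' hch'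
    refine ⟨OrderDual.toDual c, ⟨fun x hx => hc2 hx, fun u hu => hu hc1⟩, ?_⟩
    exact subset_closure ⟨OrderDual.toDual c, hc1, le_rfl⟩
  · rintro ⟨h, -⟩
    have := h (OrderDual.ofDual ⁻¹' (Set.range fun n => ((dd n : P) : Y)))
      ⟨OrderDual.toDual (dd 0 : Y), ⟨0, rfl⟩⟩ ?_
    · exact not_sc this
    · rintro a ⟨m, ha⟩ b ⟨n, hb⟩
      refine ⟨max m n, ?_⟩
      change ((dd (max m n) : P) : Y) = (OrderDual.ofDual a ⊔ OrderDual.ofDual b : Y)
      rw [← ha, ← hb]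
      simp only
      rcases le_total m n with h | h
      · rw [max_eq_right h, sup_eq_right.2 (WithTop.coe_le_coe.2 (dd_mono h))]
      · rw [max_eq_left h, sup_eq_left.2 (WithTop.coe_le_coe.2 (dd_mono h))]

end Pool.Agent.Results.MP_5a7388_gt.NotSComplete
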